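import Pool.Agent.helper72.SqT
import Pool.Agent.helper72.SqN
import Pool.Agent.helper72.TorusDefs

/-!
The square-root law for the `k`-th geodesic length in the mapping class orbit of a curve on the
one-holed torus holds for almost every hyperbolic metric and every curve that does not fill.
-/

set_option autoImplicit false

namespace Pool.Agent.Results.MP_d52931_gt.NonFillingAlmostEvery

open Pool.Agent.helper72.Sq MeasureTheory Matrix

lemma orb_map {g : F2} {φ : MulAut F2} (hφ : φ ∈ MCG) : orb (φ g) = orb g := by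
  ext c
  constructor
  · rintro ⟨ψ, hψ, rfl⟩
    exact ⟨ψ * φ, MCG.mul_mem hψ hφ, by rw [MulAut.mul_apply]⟩
  · rintro ⟨ψ, hψ, rfl⟩
    refine ⟨ψ * φ⁻¹, MCG.mul_mem hψ (MCG.inv_mem hφ), ?_⟩
    rw [← MulAut.mul_apply, inv_mul_cancel_right]

lemma orb_conj {g h : F2} (hgh : IsConj g h) : orb g = orb h := by
  have key : ∀ φ : MulAut F2, cl (φ g) = cl (φ h) := fun φ =>
    cl_map φ.toMonoidHom (cl_of_isConj hgh)
  ext c
  constructor
  · rintro ⟨ψ, hψ, rfl⟩
    exact ⟨ψ, hψ, key ψ⟩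
  · rintro ⟨ψ, hψ, rfl⟩
    exact ⟨ψ, hψ, (key ψ).symm⟩

/-- For almost every point of Fricke space (a triple of traces `(tr ρ(a), tr ρ(b), tr ρ(ab))` of a
hyperbolic metric on the one-holed torus with geodesic boundary), for the holonomy `ρ` of that
metric, and for every closed curve that does not fill the torus and is not a power of the boundary,
the lengths in the mapping class orbit obey the square-root law with bounded error. -/
theorem result : ∀ᵐ t : ℝ × ℝ × ℝ, t ∈ Fricke →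
    ∀ ρ : F2 →* SpecialLinearGroup (Fin 2) ℝ,
      tr (ρ ga) = t.1 → tr (ρ gb) = t.2.1 → tr (ρ (ga * gb)) = t.2.2 →
      ∀ g : F2, NonFilling g → ¬ Peripheral g → SqrtLaw ρ g := by
  filter_upwards [ae_allDio, ae_allDio_Tw] with t h1 h2 ht ρ ha hb hab g hg hper
  have htri : trTri ρ (ga, gb) = t := by
    unfold trTri
    simp only
    rw [ha, hb, hab]
  have hA : Adm (trTri ρ (ga, gb)) := by
    rw [htri]
    refine ⟨ht.1, ht.2.1, ?_⟩
    unfold kap
    linarith [ht.2.2.2]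
  obtain ⟨φ, hφ, w, hw, hconj⟩ := hg
  have horb : orb g = orb w := by rw [← orb_map hφ, orb_conj hconj]
  have hperw : ¬ ∃ m : ℤ, IsConj w (kom ^ m) := by
    rintro ⟨m, hm⟩
    apply hper
    refine ⟨m, ?_⟩
    have e1 : IsConj (φ g) (kom ^ m) := hconj.trans hm
    have e2 : IsConj (φ⁻¹ (φ g)) (φ⁻¹ (kom ^ m)) := (φ⁻¹ : MulAut F2).toMonoidHom.map_isConj e1
    rw [← MulAut.mul_apply, inv_mul_cancel, MulAut.one_apply] at e2
    refine e2.trans ?_
    have e3 : IsConj (φ⁻¹ kom) kom := kom_MCG φ⁻¹ (MCG.inv_mem hφ)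
    rw [map_zpow]
    obtain ⟨c, hc⟩ := isConj_iff.1 e3
    rw [isConj_iff]
    refine ⟨c, ?_⟩
    calc c * (φ⁻¹ kom) ^ m * c⁻¹ = (c * φ⁻¹ kom * c⁻¹) ^ m := conj_zpow.symm
      _ = kom ^ m := by rw [hc]
  obtain ⟨he, u, C, hu, hlaw⟩ := pants_law ρ hA (by rw [htri]; exact h1) (by rw [htri]; exact h2)
    hw hperw
  unfold SqrtLaw
  rw [horb]
  refine ⟨he, u, 0, C, hu, fun e hmono k => ?_⟩
  rw [add_zero]
  exact hlaw e hmono k

end Pool.Agent.Results.MP_d52931_gt.NonFillingAlmostEvery
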