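import Pool.Agent.helper72.Cov.Smooth3

open Finset

namespace Pool.Agent.helper72.Parked.SmoothChoices

open Pool.Agent.helper72.Cov

theorem arith {q H P L M lN lH : ℝ} (hLP : 0 ≤ L * P) (hM0 : 0 ≤ M) (hL : 0 ≤ lN * L) (hP : 0 ≤ P)
    (hlog : 1 + lH ≤ 2 * lN)
    (h : q ^ 2 * H ≤ (16 * 10 ^ 12 * (L * P * (1 + lH))) * M) :
    q ^ 2 * H ≤ M * (10 ^ 14 * L * lN) * P := by
  have h1 : (L * P) * (1 + lH) ≤ (L * P) * (2 * lN) := mul_le_mul_of_nonneg_left hlog hLP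
  have h2 : (16 * 10 ^ 12 * (L * P * (1 + lH))) * M ≤ (16 * 10 ^ 12 * ((L * P) * (2 * lN))) * M :=
    mul_le_mul_of_nonneg_right (by linarith) hM0
  have h3 : 0 ≤ lN * L * P * M := by positivity
  nlinarith

/-- **Choices that follow a smooth function.** Let `1/2 ≤ α < 1` and let `N` be large. Let `a` be
a choice of residues such that for the primes `p` of some set `Q ⊆ [N^α, 2N^α)` the class `a p`
contains an integer `b p` with `|b p - f p| ≤ L`, where `1 ≤ L ≤ N^(1-α)/256` and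
`f : [N^α, 2N^α] → [-N, N]` is a `C¹` function with
`|f' x - f' y| ≤ min (√L N^(-α)) (L N^(2α-2)) |x - y|`. Then the chosen classes cover at least
`|Q|² N^(1-2α) / (10^14 L log N)` integers of `{1, …, N}`. -/
theorem result (α : ℝ) (hα : 1 / 2 ≤ α) (hα1 : α < 1) :
    ∃ N₀ : ℕ, ∀ N : ℕ, N₀ ≤ N →
      ∀ (a : (p : ℕ) → ZMod p) (L : ℝ) (f f' : ℝ → ℝ) (Q : Finset ℕ) (b : ℕ → ℤ),
      1 ≤ L → L ≤ (N : ℝ) ^ (1 - α) / 256 →
      (∀ x ∈ Set.Icc ((N : ℝ) ^ α) (2 * (N : ℝ) ^ α), |f x| ≤ N ∧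
        HasDerivWithinAt f (f' x) (Set.Icc ((N : ℝ) ^ α) (2 * (N : ℝ) ^ α)) x) →
      (∀ x ∈ Set.Icc ((N : ℝ) ^ α) (2 * (N : ℝ) ^ α),
        ∀ y ∈ Set.Icc ((N : ℝ) ^ α) (2 * (N : ℝ) ^ α),
          |f' x - f' y| ≤ min (√L * (N : ℝ) ^ (-α)) (L * (N : ℝ) ^ (2 * α - 2)) * |x - y|) →
      (∀ p ∈ Q, p.Prime ∧ (N : ℝ) ^ α ≤ p ∧ (p : ℝ) < 2 * (N : ℝ) ^ α ∧
        ((b p : ℤ) : ZMod p) = a p ∧ |(b p : ℝ) - f p| ≤ L) →
      (Q.card : ℝ) ^ 2 * (N : ℝ) ^ (1 - 2 * α) / (10 ^ 14 * L * Real.log N) ≤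
        ({n : ℕ | 1 ≤ n ∧ n ≤ N ∧ ∃ p : ℕ, p.Prime ∧ (N : ℝ) ^ α ≤ p ∧
          (p : ℝ) < 2 * (N : ℝ) ^ α ∧ (n : ZMod p) = a p}.ncard : ℝ) := by
  classical
  have ev1 : ∀ᶠ N : ℕ in Filter.atTop, (1024 : ℝ) ≤ (N : ℝ) ^ (1 - α) :=
    ((tendsto_rpow_atTop (by linarith : 0 < 1 - α)).comp
      tendsto_natCast_atTop_atTop).eventually_ge_atTop _
  obtain ⟨N₁, hN₁⟩ := Filter.eventually_atTop.mp ev1
  refine ⟨max N₁ 3, ?_⟩
  intro N hN a L f f' Q b hL1 hL2 hf hf' hQ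
  have hH : (1024 : ℝ) ≤ (N : ℝ) ^ (1 - α) := hN₁ N ((le_max_left _ _).trans hN)
  have hN3 : (3 : ℝ) ≤ N := by exact_mod_cast (le_max_right _ _).trans hN
  have hN0 : (0 : ℝ) < N := by linarith
  have hlogN : 1 ≤ Real.log N := by
    rw [Real.le_log_iff_exp_le hN0]
    have := Real.exp_one_lt_d9
    linarith
  set P : ℝ := (N : ℝ) ^ α with hPdef
  set H : ℝ := (N : ℝ) ^ (1 - α) with hHdef
  set B : ℝ := min (√L * (N : ℝ) ^ (-α)) (L * (N : ℝ) ^ (2 * α - 2)) with hBdef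
  have hP0 : 0 < P := Real.rpow_pos_of_pos hN0 _
  have hH0 : 0 < H := by linarith
  have hPH : (N : ℝ) = P * H := by
    rw [hPdef, hHdef, ← Real.rpow_add hN0]; simp
  have hHP : H ≤ P := Real.rpow_le_rpow_of_exponent_le (by linarith) (by linarith)
  have hB0 : 0 ≤ B := le_min (by positivity) (by positivity)
  have hBP : (B * P) ^ 2 ≤ L := by
    have e1 : B * P ≤ √L := by
      calc B * P ≤ (√L * (N : ℝ) ^ (-α)) * P := mul_le_mul_of_nonneg_right (min_le_left _ _) hP0.le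
        _ = √L * ((N : ℝ) ^ (-α) * P) := by ring
        _ = √L := by rw [hPdef, ← Real.rpow_add hN0]; simp
    calc (B * P) ^ 2 ≤ (√L) ^ 2 := pow_le_pow_left₀ (by positivity) e1 2
      _ = L := Real.sq_sqrt (by linarith)
  have hBH : B * H ^ 2 ≤ L := by
    have e2 : (N : ℝ) ^ (2 * α - 2) * H ^ 2 = 1 := by
      rw [hHdef, ← Real.rpow_natCast, ← Real.rpow_mul hN0.le, ← Real.rpow_add hN0]
      have : 2 * α - 2 + (1 - α) * ((2 : ℕ) : ℝ) = 0 := by push_cast; ring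
      rw [this, Real.rpow_zero]
    calc B * H ^ 2 ≤ (L * (N : ℝ) ^ (2 * α - 2)) * H ^ 2 :=
          mul_le_mul_of_nonneg_right (min_le_right _ _) (by positivity)
      _ = L * ((N : ℝ) ^ (2 * α - 2) * H ^ 2) := by ring
      _ = L := by rw [e2, mul_one]
  -- the data
  let S : Setup :=
    { P := P
      H := H
      L := L
      B := B
      f := f
      g := f'
      Q := Q
      b := b
      hH := hH
      hHP := hHP
      hL1 := hL1
      hLH := by linarith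
      hB0 := hB0
      hBP := hBP
      hBH := hBH
      hQ := fun p hp => ⟨(hQ p hp).2.1, (hQ p hp).2.2.1.le⟩
      hb := fun p hp => (hQ p hp).2.2.2.2
      hf := fun x h1 h2 => by rw [← hPH]; exact (hf x ⟨h1, h2⟩).1
      tay := fun x y h1 h2 h3 h4 => taylor hB0 (fun x hx => (hf x hx).2) hf' ⟨h1, h2⟩ ⟨h3, h4⟩
      lip := fun x y h1 h2 h3 h4 => hf' x ⟨h1, h2⟩ y ⟨h3, h4⟩ }
  have hmain := Setup.image_ge (S := S) (N := N) hPH
  change (Q.card : ℝ) ^ 2 * H ≤ (16 * 10 ^ 12 * (L * P * (1 + Real.log H))) *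
    (((S.Fl N).image S.val).card : ℝ) at hmain
  -- the image lies in the set
  have hfin : {n : ℕ | 1 ≤ n ∧ n ≤ N ∧ ∃ p : ℕ, p.Prime ∧ P ≤ p ∧ (p : ℝ) < 2 * P ∧
        (n : ZMod p) = a p}.Finite :=
    (Set.finite_Icc 1 N).subset (fun n hn => ⟨hn.1, hn.2.1⟩)
  have himg : ((((S.Fl N).image S.val).image Int.toNat : Finset ℕ) : Set ℕ) ⊆
      {n : ℕ | 1 ≤ n ∧ n ≤ N ∧ ∃ p : ℕ, p.Prime ∧ P ≤ p ∧ (p : ℝ) < 2 * P ∧
        (n : ZMod p) = a p} := by
    intro n hn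
    rw [Finset.mem_coe, Finset.mem_image] at hn
    obtain ⟨m, hm, rfl⟩ := hn
    obtain ⟨e1, e2⟩ := Setup.image_range hm
    obtain ⟨p, hp, k, hk⟩ := Setup.image_class hm
    have hp' : p ∈ Q := hp
    obtain ⟨q1, q2, q3, q4, _⟩ := hQ p hp'
    refine ⟨by omega, by omega, p, q1, q2, q3, ?_⟩
    have e3 : ((m.toNat : ℤ) : ZMod p) = ((m : ℤ) : ZMod p) := by
      rw [Int.toNat_of_nonneg (by omega)]
    rw [Int.cast_natCast] at e3
    rw [e3, hk]
    push_cast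
    rw [ZMod.natCast_self, mul_zero, zero_add]
    exact q4
  have hcard1 : (((S.Fl N).image S.val).image Int.toNat).card = ((S.Fl N).image S.val).card := by
    apply Finset.card_image_of_injOn
    intro x hx y hy hxy
    have e1 := Setup.image_range (Finset.mem_coe.mp hx)
    have e2 := Setup.image_range (Finset.mem_coe.mp hy)
    omega
  have hle : (((S.Fl N).image S.val).card : ℝ) ≤
      ({n : ℕ | 1 ≤ n ∧ n ≤ N ∧ ∃ p : ℕ, p.Prime ∧ P ≤ p ∧ (p : ℝ) < 2 * P ∧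
        (n : ZMod p) = a p}.ncard : ℝ) := by
    rw [← hcard1]
    have := Set.ncard_le_ncard himg hfin
    rw [Set.ncard_coe_finset] at this
    exact_mod_cast this
  refine le_trans ?_ hle
  rw [div_le_iff₀ (by positivity)]
  have hNP : (N : ℝ) ^ (1 - 2 * α) = H / P := by
    rw [hHdef, hPdef, ← Real.rpow_sub hN0]
    congr 1
    ring
  have hlogH : 1 + Real.log H ≤ 2 * Real.log N := by
    have h1 : H ≤ N := Real.rpow_le_self_of_one_le (by linarith) (by linarith)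
    have h2 : Real.log H ≤ Real.log N := Real.log_le_log hH0 h1
    linarith
  rw [hNP, mul_div_assoc', div_le_iff₀ hP0]
  set M : ℝ := (((S.Fl N).image S.val).card : ℝ) with hM
  have hM0 : 0 ≤ M := Nat.cast_nonneg _
  exact arith (by positivity) hM0 (by positivity) hP0.le hlogH hmain

end Pool.Agent.helper72.Parked.SmoothChoices
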