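import Pool.Agent.helper72.Cov.Twist2
import Pool.Agent.helper79.DyadicPrimes

open Finset MeasureTheory

namespace Pool.Agent.Results.MP_bb5cc8_nt.Twists

/-- The primes `p` with `N^α ≤ p < 2 N^α` (recall `p < ⌈x⌉₊ ↔ (p : ℝ) < x`). -/
noncomputable def primesNear (α : ℝ) (N : ℕ) : Finset ℕ :=
  (Finset.range ⌈2 * (N : ℝ) ^ α⌉₊).filter (fun p => p.Prime ∧ (N : ℝ) ^ α ≤ p)

theorem mem_primesNear {α : ℝ} {N p : ℕ} :
    p ∈ primesNear α N ↔ p.Prime ∧ (N : ℝ) ^ α ≤ p ∧ (p : ℝ) < 2 * (N : ℝ) ^ α := by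
  rw [primesNear, Finset.mem_filter, Finset.mem_range, Nat.lt_ceil]
  tauto

theorem card_primesNear_ge {α : ℝ} (h0 : 0 < α) (h1 : α < 1) :
    ∀ᶠ N : ℕ in Filter.atTop, (N : ℝ) ^ α / (16 * Real.log N) ≤ (primesNear α N).card := by
  have ev1 : ∀ᶠ N : ℕ in Filter.atTop, (200000000 : ℝ) ≤ (N : ℝ) ^ α :=
    ((tendsto_rpow_atTop h0).comp tendsto_natCast_atTop_atTop).eventually_ge_atTop _
  filter_upwards [ev1, Filter.eventually_ge_atTop 3] with N hX hN
  have hN3 : (3 : ℝ) ≤ N := by exact_mod_cast hN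
  have hN0 : (0 : ℝ) < N := by linarith
  set X : ℝ := (N : ℝ) ^ α with hXd
  set n : ℕ := ⌊X⌋₊ with hn
  have hnX : (n : ℝ) ≤ X := Nat.floor_le (by linarith)
  have hnX2 : X < n + 1 := Nat.lt_floor_add_one X
  have hn8 : 100000000 ≤ n := by
    have : (100000000 : ℝ) ≤ n := by linarith
    exact_mod_cast this
  have hsub : Pool.Agent.helper79.DyadicPrimes.dy n ⊆ primesNear α N := by
    intro p hp
    rw [Pool.Agent.helper79.DyadicPrimes.dy, Finset.mem_filter, Finset.mem_Ioc] at hp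
    obtain ⟨⟨hp1, hp2⟩, hp3⟩ := hp
    rw [mem_primesNear]
    refine ⟨hp3, ?_, ?_⟩
    · have : (n : ℝ) + 1 ≤ p := by exact_mod_cast hp1
      linarith
    · have h2 : p ≠ 2 * n := by
        intro h2
        have h3 : 2 ∣ p := ⟨n, h2⟩
        rcases (Nat.dvd_prime hp3).mp h3 with h4 | h4
        · omega
        · omega
      have h3 : p < 2 * n := lt_of_le_of_ne hp2 h2
      have h4 : (p : ℝ) < 2 * n := by exact_mod_cast h3
      linarith
  have hc := Pool.Agent.helper79.DyadicPrimes.card_dy_ge hn8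
  have hc2 : ((Pool.Agent.helper79.DyadicPrimes.dy n).card : ℝ) ≤ (primesNear α N).card := by
    exact_mod_cast Finset.card_le_card hsub
  refine le_trans ?_ (hc.trans hc2)
  have hn8R : (100000000 : ℝ) ≤ n := by exact_mod_cast hn8
  have hlogn : 0 < Real.log n := Real.log_pos (by linarith)
  have hlogN : Real.log n ≤ Real.log N := by
    apply Real.log_le_log (by linarith)
    exact hnX.trans (Real.rpow_le_self_of_one_le (by linarith) h1.le)
  rw [div_le_div_iff₀ (by linarith) (by linarith)]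
  have h2 : X ≤ 2 * n := by linarith
  calc X * (8 * Real.log n) ≤ (2 * n) * (8 * Real.log N) := by gcongr
    _ = n * (16 * Real.log N) := by ring

open Pool.Agent.helper72.Cov

/-- **Almost every twist of every choice covers `≫ N / log N` integers.** For every `0 < α < 1`
there is `N₀` such that for all `N ≥ N₀`, every choice `a` of one residue class `a p` modulo each
prime `p ∈ [N^α, 2N^α)`, and every real `K ≥ 1`: the set of `θ ∈ [0, 1]` for which the twisted
choice `p ↦ a p + ⌊θ p⌋` covers fewer than `N / (128 K log N)` integers of `{1, …, N}` has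
Lebesgue measure at most `1 / (K log N)`. -/
theorem result (α : ℝ) (hα : 0 < α) (hα1 : α < 1) :
    ∃ N₀ : ℕ, ∀ N : ℕ, N₀ ≤ N → ∀ a : (p : ℕ) → ZMod p, ∀ K : ℝ, 1 ≤ K →
      volume {θ : ℝ | 0 ≤ θ ∧ θ ≤ 1 ∧
        ({n : ℕ | 1 ≤ n ∧ n ≤ N ∧ ∃ p : ℕ, p.Prime ∧ (N : ℝ) ^ α ≤ p ∧ (p : ℝ) < 2 * (N : ℝ) ^ α ∧
          (n : ZMod p) = a p + ((⌊θ * p⌋ : ℤ) : ZMod p)}.ncard : ℝ) <
            N / (128 * K * Real.log N)} ≤ ENNReal.ofReal (1 / (K * Real.log N)) := by
  classical
  have h1α : 0 < 1 - α := by linarith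
  have evL : ∀ᶠ x : ℝ in Filter.atTop, 384 * Real.log x ^ 2 ≤ x ^ (1 - α) := by
    have hlo := isLittleO_log_rpow_rpow_atTop 2 h1α
    have h2 := hlo.def (c := 1 / 384) (by norm_num)
    filter_upwards [h2, Filter.eventually_ge_atTop 1] with x hx hx1
    have hlog := Real.log_nonneg hx1
    rw [Real.norm_of_nonneg (Real.rpow_nonneg hlog _),
      Real.norm_of_nonneg (Real.rpow_nonneg (by linarith) _), Real.rpow_two] at hx
    linarith
  have evL' : ∀ᶠ N : ℕ in Filter.atTop, 384 * Real.log N ^ 2 ≤ (N : ℝ) ^ (1 - α) :=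
    tendsto_natCast_atTop_atTop.eventually evL
  obtain ⟨N₂, hN₂⟩ := Filter.eventually_atTop.mp ((card_primesNear_ge hα hα1).and evL')
  refine ⟨max N₂ 8, ?_⟩
  intro N hN a K hK
  obtain ⟨hcard, hlog2⟩ := hN₂ N ((le_max_left _ _).trans hN)
  have hN8 : (8 : ℝ) ≤ N := by exact_mod_cast (le_max_right _ _).trans hN
  have hN0 : (0 : ℝ) < N := by linarith
  have hL2 : 2 ≤ Real.log N := by
    rw [Real.le_log_iff_exp_le hN0]
    have h1 := Real.exp_one_lt_d9
    have h2 : Real.exp 2 = Real.exp 1 * Real.exp 1 := by rw [← Real.exp_add]; norm_num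
    rw [h2]
    nlinarith [Real.exp_pos 1]
  set L : ℝ := Real.log N with hLdef
  set X : ℝ := (N : ℝ) ^ α with hXdef
  set Q := primesNear α N with hQdef
  have hX1 : 1 ≤ X := Real.one_le_rpow (by linarith) hα.le
  have hX0 : 0 < X := by linarith
  have hXN : X * (N : ℝ) ^ (1 - α) = N := by
    rw [hXdef, ← Real.rpow_add hN0]; simp
  have hXleN : X ≤ N := Real.rpow_le_self_of_one_le (by linarith) hα1.le
  -- the number of flags per prime
  set Y : ℝ := (N : ℝ) ^ (1 - α) with hYdef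
  have hY12 : 12 ≤ Y := by nlinarith
  set H : ℕ := ⌊Y / 2⌋₊ - 2 with hHdef
  have hfl : Y / 2 - 1 < ⌊Y / 2⌋₊ := by
    have := Nat.lt_floor_add_one (Y / 2)
    linarith
  have hfl2 : (⌊Y / 2⌋₊ : ℝ) ≤ Y / 2 := Nat.floor_le (by linarith)
  have hfl3 : 3 ≤ ⌊Y / 2⌋₊ := Nat.le_floor (by push_cast; linarith)
  have hH1 : 1 ≤ H := by omega
  have hHR : (H : ℝ) = ⌊Y / 2⌋₊ - 2 := by
    rw [hHdef, Nat.cast_sub (by omega)]; norm_num
  have hHlow : Y / 4 ≤ H := by rw [hHR]; linarith
  have hHup : ((H : ℝ) + 2) * (2 * X) ≤ N := by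
    rw [hHR, ← hXN]
    nlinarith
  have hHX : N / 4 ≤ H * X := by
    rw [← hXN]
    nlinarith
  have hcard0 : X / (16 * L) ≤ Q.card := hcard
  have hQpos : (0 : ℝ) < Q.card := lt_of_lt_of_le (by positivity) hcard0
  have hQ1 : 1 ≤ Q.card := by exact_mod_cast hQpos
  have hQmem : ∀ p ∈ Q, X ≤ p ∧ (p : ℝ) ≤ 2 * X := fun p hp =>
    ⟨(mem_primesNear.mp hp).2.1, (mem_primesNear.mp hp).2.2.le⟩
  set b : ℕ → ℤ := fun p => ((a p).val : ℤ) with hbdef
  set B : ℝ := N / (128 * K * L) with hBdef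
  have hK0 : 0 < K := by linarith
  have hL0 : 0 < L := by linarith
  have hB0 : 0 < B := by positivity
  have hH0 : (0 : ℝ) < H := by exact_mod_cast hH1
  have hM : N / (64 * L) ≤ Q.card * H := by
    calc N / (64 * L) = X / (16 * L) * (N / 4 / X) := by field_simp; norm_num
      _ ≤ Q.card * H := by
        apply mul_le_mul hcard0 _ (by positivity) (Nat.cast_nonneg _)
        rw [div_le_iff₀ hX0]
        exact hHX
  have hB2 : 2 * B ≤ Q.card * H := by
    refine le_trans ?_ hM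
    rw [hBdef]
    have : 2 * ((N : ℝ) / (128 * K * L)) = N / (64 * L) / K := by field_simp; norm_num
    rw [this]
    apply div_le_self (by positivity) hK
  have hbad := bad_measure (b := b) hX1 hH1 hQmem hQ1 hB0 hB2
  refine (measure_mono ?_).trans (hbad.trans (ENNReal.ofReal_le_ofReal ?_))
  · rintro θ ⟨h0, h1, h2⟩
    refine ⟨h0, h1, lt_of_le_of_lt ?_ h2⟩
    -- the image is contained in the set
    have hfin : {n : ℕ | 1 ≤ n ∧ n ≤ N ∧ ∃ p : ℕ, p.Prime ∧ X ≤ p ∧ (p : ℝ) < 2 * X ∧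
          (n : ZMod p) = a p + ((⌊θ * p⌋ : ℤ) : ZMod p)}.Finite :=
      (Set.finite_Icc 1 N).subset (fun n hn => ⟨hn.1, hn.2.1⟩)
    have hval : ∀ x ∈ Q ×ˢ Finset.Icc 1 H, 1 ≤ nn b θ x ∧ nn b θ x ≤ N := by
      rintro ⟨p, k⟩ hx
      rw [Finset.mem_product, Finset.mem_Icc] at hx
      obtain ⟨hp, hk1, hk2⟩ := hx
      simp only at hp hk1 hk2
      have hpm := mem_primesNear.mp hp
      have hp0 : 0 < p := hpm.1.pos
      have : NeZero p := ⟨hp0.ne'⟩
      have hpR : (0 : ℝ) < p := by exact_mod_cast hp0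
      have hb0 : 0 ≤ b p := by rw [hbdef]; positivity
      have hb1 : b p < p := by
        show ((a p).val : ℤ) < p
        exact_mod_cast ZMod.val_lt (a p)
      have hfl0 : 0 ≤ ⌊θ * p⌋ := Int.floor_nonneg.mpr (by positivity)
      have hfl1 : (⌊θ * p⌋ : ℝ) ≤ p := by
        have e1 := Int.floor_le (θ * p)
        nlinarith
      unfold nn
      simp only
      constructor
      · have : (1 : ℤ) * 1 ≤ k * p :=
          mul_le_mul (by exact_mod_cast hk1) (by exact_mod_cast hp0) (by norm_num)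
            (by positivity)
        linarith
      · have e1 : (k : ℝ) * p + b p + ⌊θ * p⌋ ≤ N := by
          have e2 : (b p : ℝ) ≤ p := by exact_mod_cast hb1.le
          have e3 : (k : ℝ) ≤ H := by exact_mod_cast hk2
          have e4 : (p : ℝ) ≤ 2 * X := hpm.2.2.le
          calc (k : ℝ) * p + b p + ⌊θ * p⌋ ≤ H * p + p + p := by
                gcongr
            _ = (H + 2) * p := by ring
            _ ≤ (H + 2) * (2 * X) := by gcongr
            _ ≤ N := hHup
        exact_mod_cast e1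
    have himg : (((Q ×ˢ Finset.Icc 1 H).image (nn b θ)).image Int.toNat : Set ℕ) ⊆
        {n : ℕ | 1 ≤ n ∧ n ≤ N ∧ ∃ p : ℕ, p.Prime ∧ X ≤ p ∧ (p : ℝ) < 2 * X ∧
          (n : ZMod p) = a p + ((⌊θ * p⌋ : ℤ) : ZMod p)} := by
      intro n hn
      rw [Finset.mem_coe, Finset.mem_image] at hn
      obtain ⟨m, hm, rfl⟩ := hn
      rw [Finset.mem_image] at hm
      obtain ⟨⟨p, k⟩, hx, rfl⟩ := hm
      obtain ⟨e1, e2⟩ := hval _ hx
      rw [Finset.mem_product] at hx
      have hpm := mem_primesNear.mp hx.1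
      simp only at hpm
      have : NeZero p := ⟨hpm.1.pos.ne'⟩
      have hcast : ((nn b θ (p, k)).toNat : ℤ) = nn b θ (p, k) := Int.toNat_of_nonneg (by linarith)
      refine ⟨by omega, by omega, p, hpm.1, hpm.2.1, hpm.2.2, ?_⟩
      have e3 : (((nn b θ (p, k)).toNat : ℤ) : ZMod p) = ((nn b θ (p, k) : ℤ) : ZMod p) := by
        rw [hcast]
      rw [Int.cast_natCast] at e3
      rw [e3]
      unfold nn
      simp only [hbdef]
      push_cast
      rw [ZMod.natCast_self, mul_zero, zero_add, ZMod.natCast_zmod_val]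
    have hcard1 : (((Q ×ˢ Finset.Icc 1 H).image (nn b θ)).image Int.toNat).card =
        ((Q ×ˢ Finset.Icc 1 H).image (nn b θ)).card := by
      apply Finset.card_image_of_injOn
      intro x hx y hy hxy
      rw [Finset.mem_coe, Finset.mem_image] at hx hy
      obtain ⟨x', hx', rfl⟩ := hx
      obtain ⟨y', hy', rfl⟩ := hy
      have e1 := hval _ hx'
      have e2 := hval _ hy'
      omega
    rw [← hcard1]
    have := Set.ncard_le_ncard himg hfin
    rw [Set.ncard_coe_finset] at this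
    exact_mod_cast this
  · -- the numerical bound
    have hlog2X : 1 + Real.log (2 * X) ≤ 2 * L := by
      rw [Real.log_mul (by norm_num) hX0.ne']
      have e1 : Real.log 2 ≤ 1 := by
        have := Real.log_two_lt_d9
        linarith
      have e2 : Real.log X ≤ L := Real.log_le_log hX0 hXleN
      linarith
    have hb1 : 6 * ((H : ℝ) + 1) * (Q.card : ℝ) ^ 2 / X ≤ (Q.card * H) ^ 2 * (48 / N) := by
      have e1 : (H : ℝ) + 1 ≤ 2 * H := by
        have : (1 : ℝ) ≤ H := by exact_mod_cast hH1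
        linarith
      rw [div_le_iff₀ hX0]
      have e2 : 1 ≤ 4 / N * (H * X) := by
        rw [div_mul_eq_mul_div, le_div_iff₀ hN0]
        linarith
      calc 6 * ((H : ℝ) + 1) * (Q.card : ℝ) ^ 2 ≤ 6 * (2 * H) * (Q.card : ℝ) ^ 2 := by gcongr
        _ = 12 * H * (Q.card : ℝ) ^ 2 * 1 := by ring
        _ ≤ 12 * H * (Q.card : ℝ) ^ 2 * (4 / N * (H * X)) := by gcongr
        _ = (Q.card * H) ^ 2 * (48 / N) * X := by ring
    have hb2 : 12 * (Q.card : ℝ) * (1 + Real.log (2 * X)) ≤ (Q.card * H) ^ 2 * (16 / N) := by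
      have e1 : X ≤ 16 * L * Q.card := by
        rw [div_le_iff₀ (by positivity)] at hcard0
        linarith
      have e2 : 96 * L ^ 2 ≤ H := by linarith
      calc 12 * (Q.card : ℝ) * (1 + Real.log (2 * X)) ≤ 12 * Q.card * (2 * L) := by gcongr
        _ = 24 * L * Q.card * 1 := by ring
        _ ≤ 24 * L * Q.card * ((4 / N * (H * X)) * 1) := by
          have e3 : 1 ≤ 4 / N * (H * X) := by
            rw [div_mul_eq_mul_div, le_div_iff₀ hN0]
            linarith
          exact mul_le_mul_of_nonneg_left (by rw [mul_one]; exact e3) (by positivity)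
        _ = (96 * L / N) * Q.card * H * X := by ring
        _ ≤ (96 * L / N) * Q.card * H * (16 * L * Q.card) := by gcongr
        _ = (96 * L ^ 2) * (16 / N) * (Q.card : ℝ) ^ 2 * H := by ring
        _ ≤ H * (16 / N) * (Q.card : ℝ) ^ 2 * H := by gcongr
        _ = (Q.card * H) ^ 2 * (16 / N) := by ring
    rw [div_le_iff₀ (by positivity)]
    calc (6 * ((H : ℝ) + 1) * (Q.card : ℝ) ^ 2 / X + 12 * Q.card * (1 + Real.log (2 * X))) * (2 * B)
        ≤ ((Q.card * H) ^ 2 * (48 / N) + (Q.card * H) ^ 2 * (16 / N)) * (2 * B) := by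
          gcongr
      _ = 1 / (K * L) * (Q.card * H) ^ 2 := by
          rw [hBdef]
          field_simp
          norm_num

end Pool.Agent.Results.MP_bb5cc8_nt.Twists
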